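import Pool.Agent.R508.OrdSum
import Pool.Agent.R508.SubsetTail

set_option autoImplicit false

/-!
# Permutational walks of low cost in k-DFAs

For every exponent `c₃ > 3 / 2`, every `c > 0` and every polynomial number `k ^ A` of states, the number
of permutational words whose walk costs at most `k ^ 2 / 2 - c k ^ c₃` is `o(k!)`, uniformly over all
k-DFAs. In particular Q1 holds (for instance with the exponent `8 / 5 < 7 / 4`).

Proof. Let `w` be a uniformly random permutational word. Before each step the set of unseen letters is a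
uniformly random set of its size, so by a Chernoff bound for subsets and a union bound over all states and
all times, with high probability the average cost of the unseen letters is at least
`(k + 1) / 2 - O(k (log k / m) ^ (1 / 2))` for every state and every number `m` of unseen letters. The
difference between the cost of the walk and the sum of these averages along the walk is a martingale with
increments at most `k`, so its second moment is at most `k ^ 3`. The total loss is
`O(k ^ (3 / 2) (log k) ^ (1 / 2))`.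
-/

namespace Pool.Agent.Results.MP_91d3dc_co.EveryExponent

open Finset Filter Topology Pool.Agent.R508.Ord Pool.Agent.R508.Tail

/-- A `k`-DFA with `N` states: transition function, root and cost function; the costs of the letters in a
given state are a permutation of `1, ..., k`. -/
structure KDFA (k N : ℕ) where
  δ : Fin N → Fin k → Fin N
  r : Fin N
  c : Fin N → Fin k → ℕ
  perm : ∀ v, Set.BijOn (c v) Set.univ (Set.Icc 1 k)

/-- The cost of the walk that reads the word `w` from the state `v`. -/
def walkCost {k N : ℕ} (D : KDFA k N) : Fin N → List (Fin k) → ℕ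
  | _, [] => 0
  | v, t :: w => D.c v t + walkCost D (D.δ v t) w

/-- The number of permutational words whose walk from the root costs at most `n`; the word of a
permutation `σ` is `σ 0, σ 1, ..., σ (k - 1)`. -/
noncomputable def lowCount {k N : ℕ} (D : KDFA k N) (n : ℝ) : ℕ :=
  Nat.card {σ : Equiv.Perm (Fin k) // (walkCost D D.r (List.ofFn σ) : ℝ) ≤ n}

/-- The maximum of the number of low cost permutational words over all `k`-DFAs with `N` states. -/
noncomputable def G (k : ℕ) (n : ℝ) (N : ℕ) : ℕ := sSup {m | ∃ D : KDFA k N, m = lowCount D n}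

theorem sum_Icc_real (k : ℕ) : (∑ i ∈ Finset.Icc 1 k, (i : ℝ)) = k * ((k : ℝ) + 1) / 2 := by
  induction k with
  | zero => simp
  | succ k ih => rw [Finset.sum_Icc_succ_top (by omega), ih]; push_cast; ring

section

variable {k N : ℕ} (D : KDFA k N)

/-- average cost of a set of letters -/
noncomputable def avg (v : Fin N) (U : Finset (Fin k)) : ℝ := (∑ t ∈ U, (D.c v t : ℝ)) / U.card

/-- the sum of the averages along the walk -/
noncomputable def comp : Fin N → Finset (Fin k) → List (Fin k) → ℝ
  | _, _, [] => 0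
  | v, U, t :: w => avg D v U + comp (D.δ v t) (U.erase t) w

/-- cost minus compensator -/
noncomputable def diff : Fin N → Finset (Fin k) → List (Fin k) → ℝ
  | _, _, [] => 0
  | v, U, t :: w => (D.c v t - avg D v U) + diff (D.δ v t) (U.erase t) w

theorem cost_eq (w : List (Fin k)) : ∀ (v : Fin N) (U : Finset (Fin k)),
    (walkCost D v w : ℝ) = comp D v U w + diff D v U w := by
  induction w with
  | nil => intro v U; simp [walkCost, comp, diff]
  | cons t w ih =>
    intro v U
    simp only [walkCost, comp, diff]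
    push_cast
    rw [ih (D.δ v t) (U.erase t)]
    ring

theorem c_range (v : Fin N) (t : Fin k) : 1 ≤ D.c v t ∧ D.c v t ≤ k :=
  (D.perm v).mapsTo (Set.mem_univ t)

theorem avg_range (v : Fin N) {U : Finset (Fin k)} (hU : U.Nonempty) :
    1 ≤ avg D v U ∧ avg D v U ≤ k := by
  have hpos : (0 : ℝ) < U.card := by exact_mod_cast hU.card_pos
  unfold avg
  constructor
  · rw [le_div_iff₀ hpos, one_mul]
    calc (U.card : ℝ) = ∑ _t ∈ U, (1 : ℝ) := by simp
      _ ≤ _ := Finset.sum_le_sum fun t _ => by exact_mod_cast (c_range D v t).1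
  · rw [div_le_iff₀ hpos]
    calc ∑ t ∈ U, (D.c v t : ℝ) ≤ ∑ _t ∈ U, (k : ℝ) :=
          Finset.sum_le_sum fun t _ => by exact_mod_cast (c_range D v t).2
      _ = _ := by rw [Finset.sum_const, nsmul_eq_mul]; ring

theorem E_diff (n : ℕ) : ∀ (v : Fin N) (U : Finset (Fin k)), U.card = n →
    E n U (fun w => diff D v U w) = 0 := by
  induction n with
  | zero => intro v U _; rfl
  | succ n ih =>
    intro v U hU
    simp only [E, diff]
    have h1 : ∀ t ∈ U, E n (U.erase t) (fun w => (D.c v t - avg D v U) +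
        diff D (D.δ v t) (U.erase t) w) = (n.factorial : ℝ) * (D.c v t - avg D v U) := by
      intro t ht
      have hc : (U.erase t).card = n := by rw [Finset.card_erase_of_mem ht, hU]; rfl
      rw [E_add n (U.erase t) (fun _ => (D.c v t - avg D v U)) _, E_const n _ hc, ih _ _ hc, add_zero]
    rw [Finset.sum_congr rfl h1, ← Finset.mul_sum, Finset.sum_sub_distrib, Finset.sum_const, hU,
      nsmul_eq_mul]
    have hpos : ((n + 1 : ℕ) : ℝ) ≠ 0 := by positivity
    unfold avg
    rw [hU, mul_div_cancel₀ _ hpos, sub_self, mul_zero]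

theorem E_diff_sq (n : ℕ) : ∀ (v : Fin N) (U : Finset (Fin k)), U.card = n →
    E n U (fun w => (diff D v U w) ^ 2) ≤ (n.factorial : ℝ) * n * (k : ℝ) ^ 2 := by
  induction n with
  | zero => intro v U _; simp [E, diff]
  | succ n ih =>
    intro v U hU
    simp only [E, diff]
    have hne : U.Nonempty := Finset.card_pos.1 (by omega)
    have h1 : ∀ t ∈ U, E n (U.erase t) (fun w => ((D.c v t - avg D v U) +
        diff D (D.δ v t) (U.erase t) w) ^ 2) ≤ (n.factorial : ℝ) * (n + 1) * (k : ℝ) ^ 2 := by
      intro t ht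
      have hc : (U.erase t).card = n := by rw [Finset.card_erase_of_mem ht, hU]; rfl
      set a : ℝ := D.c v t - avg D v U with ha
      have e1 : E n (U.erase t) (fun w => (a + diff D (D.δ v t) (U.erase t) w) ^ 2) =
          E n (U.erase t) (fun w => a ^ 2 + (2 * a * diff D (D.δ v t) (U.erase t) w +
            (diff D (D.δ v t) (U.erase t) w) ^ 2)) := by
        apply E_congr
        intro w _ _ _
        ring
      rw [e1, E_add n (U.erase t) (fun _ => a ^ 2) _, E_const n _ hc,
        E_add n (U.erase t) (fun w => 2 * a * diff D (D.δ v t) (U.erase t) w) _,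
        E_mul n (U.erase t) (2 * a) _, E_diff D n _ _ hc, mul_zero, zero_add]
      have h2 := ih (D.δ v t) (U.erase t) hc
      have h3 : a ^ 2 ≤ (k : ℝ) ^ 2 := by
        have b1 := avg_range D v hne
        have b2 := c_range D v t
        have b3 : (1 : ℝ) ≤ D.c v t := by exact_mod_cast b2.1
        have b4 : (D.c v t : ℝ) ≤ k := by exact_mod_cast b2.2
        apply sq_le_sq'
        · rw [ha]; linarith
        · rw [ha]; linarith
      have h4 : (n.factorial : ℝ) * a ^ 2 ≤ (n.factorial : ℝ) * (k : ℝ) ^ 2 :=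
        mul_le_mul_of_nonneg_left h3 (by positivity)
      linarith
    calc _ ≤ ∑ _t ∈ U, (n.factorial : ℝ) * (n + 1) * (k : ℝ) ^ 2 := Finset.sum_le_sum h1
      _ = _ := by
        rw [Finset.sum_const, hU, nsmul_eq_mul, Nat.factorial_succ]
        push_cast; ring

/-- lower bound for the compensator -/
theorem comp_ge (l : ℕ → ℝ) (w : List (Fin k)) : ∀ (v : Fin N), w.Nodup →
    (∀ j < w.length, ∀ v', ((k : ℝ) + 1) / 2 - l (w.length - j) ≤ avg D v' (w.drop j).toFinset) →
    ∑ m ∈ Finset.Icc 1 w.length, (((k : ℝ) + 1) / 2 - l m) ≤ comp D v w.toFinset w := by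
  induction w with
  | nil => intro v _ _; simp [comp]
  | cons t w ih =>
    intro v hnd h
    rw [List.nodup_cons] at hnd
    have h0 := h 0 (by simp) v
    rw [List.drop_zero, Nat.sub_zero] at h0
    have he : (t :: w).toFinset.erase t = w.toFinset := by
      rw [List.toFinset_cons, Finset.erase_insert (by rw [List.mem_toFinset]; exact hnd.1)]
    simp only [comp]
    rw [he]
    have h1 := ih (D.δ v t) hnd.2 (by
      intro j hj v'
      have := h (j + 1) (by simp; exact hj) v'
      simpa using this)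
    rw [List.length_cons, Finset.sum_Icc_succ_top (by omega)]
    rw [List.length_cons] at h0
    linarith

/-- the deviation function -/
noncomputable def lf (B : ℝ) (k m : ℕ) : ℝ := k * √(B * Real.log k / m)

theorem lf_nonneg (B : ℝ) (k m : ℕ) : 0 ≤ lf B k m := by unfold lf; positivity

theorem sum_c (v : Fin N) : ∑ t, (D.c v t : ℝ) = k * ((k : ℝ) + 1) / 2 := by
  have h1 : ∑ t, D.c v t = ∑ i ∈ Finset.Icc 1 k, i := by
    apply Finset.sum_bij (fun t _ => D.c v t)
    · intro t _
      exact Finset.mem_Icc.2 (c_range D v t)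
    · intro s _ t _ h
      exact (D.perm v).injOn (Set.mem_univ s) (Set.mem_univ t) h
    · intro i hi
      rw [Finset.mem_Icc] at hi
      obtain ⟨t, -, ht⟩ := (D.perm v).surjOn hi
      exact ⟨t, Finset.mem_univ t, ht⟩
    · intro t _
      rfl
  rw [← sum_Icc_real, ← Nat.cast_sum, h1, Nat.cast_sum]

/-- the number of bad sets of unseen letters -/
theorem bad_sets {B : ℝ} (hB : 0 ≤ B) (v : Fin N) {m : ℕ} (hm : 0 < m) (hmk : m ≤ k) :
    ((((Finset.univ : Finset (Fin k)).powersetCard m).filter
      (fun T => avg D v T < ((k : ℝ) + 1) / 2 - lf B k m)).card : ℝ) ≤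
      (k + 1) * (k.choose m) * Real.exp (- (B * Real.log k)) := by
  have hk : 0 < k := by omega
  have hk0 : (0 : ℝ) < k := by exact_mod_cast hk
  have hm0 : (0 : ℝ) < m := by exact_mod_cast hm
  have hlk : 0 ≤ Real.log k := Real.log_nonneg (by exact_mod_cast hk)
  by_cases hl : lf B k m ≤ k
  · rcases hmk.lt_or_eq with hlt | heq
    · set u : Fin k → ℝ := fun t => D.c v t - ((k : ℝ) + 1) / 2 with hu
      have hu1 : ∀ t, |u t| ≤ (k : ℝ) / 2 := by
        intro t
        have b2 := c_range D v t
        have b3 : (1 : ℝ) ≤ D.c v t := by exact_mod_cast b2.1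
        have b4 : (D.c v t : ℝ) ≤ k := by exact_mod_cast b2.2
        rw [abs_le]
        simp only [hu]
        constructor <;> linarith
      have hu2 : ∑ t, u t = 0 := by
        simp only [hu]
        rw [Finset.sum_sub_distrib, sum_c, Finset.sum_const, Finset.card_univ, Fintype.card_fin,
          nsmul_eq_mul]
        ring
      have h1 := chernoff hm hlt u hu1 hu2 (lf_nonneg B k m) hl
      have h2 : (m : ℝ) * lf B k m ^ 2 / (k : ℝ) ^ 2 = B * Real.log k := by
        unfold lf
        rw [mul_pow, Real.sq_sqrt (by positivity)]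
        field_simp
      rw [h2] at h1
      refine le_trans ?_ h1
      have h3 : (((Finset.univ : Finset (Fin k)).powersetCard m).filter
          (fun T => avg D v T < ((k : ℝ) + 1) / 2 - lf B k m)) ⊆
          (((Finset.univ : Finset (Fin k)).powersetCard m).filter
          (fun T => ∑ t ∈ T, u t ≤ - (m * lf B k m))) := by
        intro T hT
        rw [Finset.mem_filter] at hT ⊢
        refine ⟨hT.1, ?_⟩
        have h4 := hT.2
        have h5 : T.card = m := (Finset.mem_powersetCard.1 hT.1).2
        unfold avg at h4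
        rw [h5, div_lt_iff₀ hm0] at h4
        simp only [hu]
        rw [Finset.sum_sub_distrib, Finset.sum_const, h5, nsmul_eq_mul]
        linarith
      exact_mod_cast Finset.card_le_card h3
    · -- all letters unseen
      subst heq
      have h3 : (((Finset.univ : Finset (Fin m)).powersetCard m).filter
          (fun T => avg D v T < ((m : ℝ) + 1) / 2 - lf B m m)) = ∅ := by
        rw [Finset.eq_empty_iff_forall_notMem]
        intro T hT
        rw [Finset.mem_filter, Finset.mem_powersetCard] at hT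
        have hT1 : T = Finset.univ := by
          rw [← Finset.card_eq_iff_eq_univ, hT.1.2, Fintype.card_fin]
        have h4 := hT.2
        unfold avg at h4
        rw [hT.1.2, hT1, sum_c] at h4
        have h5 := lf_nonneg B m m
        have h6 : (m : ℝ) * (m + 1) / 2 / m = (m + 1) / 2 := by field_simp
        rw [h6] at h4
        linarith
      rw [h3]
      simp only [Finset.card_empty, Nat.cast_zero]
      positivity
  · have h3 : (((Finset.univ : Finset (Fin k)).powersetCard m).filter
        (fun T => avg D v T < ((k : ℝ) + 1) / 2 - lf B k m)) = ∅ := by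
      rw [Finset.eq_empty_iff_forall_notMem]
      intro T hT
      rw [Finset.mem_filter, Finset.mem_powersetCard] at hT
      have hne : T.Nonempty := Finset.card_pos.1 (by omega)
      have h4 := (avg_range D v hne).1
      have h5 := hT.2
      have h6 : (1 : ℝ) ≤ k := by exact_mod_cast hk
      linarith
    rw [h3]
    simp only [Finset.card_empty, Nat.cast_zero]
    positivity

end

open Classical in
/-- the main bound for one automaton -/
theorem main_bound {k N : ℕ} (D : KDFA k N) {B : ℝ} (hB : 0 ≤ B) {lam : ℝ}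
    (hlam : 0 < lam) :
    (lowCount D ((k : ℝ) * (k + 1) / 2 - ∑ m ∈ Finset.Icc 1 k, lf B k m - lam) : ℝ) ≤
      (k.factorial : ℝ) * (k * N * (k + 1) * Real.exp (- (B * Real.log k)) +
        (k : ℝ) ^ 3 / lam ^ 2) := by
  set thr : ℝ := (k : ℝ) * (k + 1) / 2 - ∑ m ∈ Finset.Icc 1 k, lf B k m - lam with hthr
  set bad : ℕ → Fin N → Finset (Fin k) → ℝ := fun j v T =>
    if avg D v T < ((k : ℝ) + 1) / 2 - lf B k (k - j) then 1 else 0 with hbad
  have hbad0 : ∀ j v T, 0 ≤ bad j v T := by
    intro j v T
    simp only [hbad]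
    split_ifs <;> norm_num
  -- the counting function as a sum
  have h1 : (lowCount D thr : ℝ) = E k Finset.univ
      (fun w => if (walkCost D D.r w : ℝ) ≤ thr then 1 else 0) := by
    rw [← sum_perm]
    unfold lowCount
    rw [Nat.card_eq_fintype_card, Fintype.card_subtype, Finset.sum_boole]
  rw [h1]
  have hcard : (Finset.univ : Finset (Fin k)).card = k := by simp
  -- pointwise bound
  have h2 : E k Finset.univ (fun w => if (walkCost D D.r w : ℝ) ≤ thr then (1 : ℝ) else 0) ≤
      E k Finset.univ (fun w => (∑ p ∈ (Finset.range k) ×ˢ (Finset.univ : Finset (Fin N)),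
        bad p.1 p.2 (w.drop p.1).toFinset) + (1 / lam ^ 2) * (diff D D.r Finset.univ w) ^ 2) := by
    apply E_mono
    intro w hw1 hw2 hw3
    have hwU : w.toFinset = Finset.univ := by
      rw [← Finset.card_eq_iff_eq_univ, List.toFinset_card_of_nodup hw1, hw2, Fintype.card_fin]
    have hs0 : 0 ≤ ∑ p ∈ (Finset.range k) ×ˢ (Finset.univ : Finset (Fin N)),
        bad p.1 p.2 (w.drop p.1).toFinset := Finset.sum_nonneg fun p _ => hbad0 _ _ _
    have hd0 : 0 ≤ (1 / lam ^ 2) * (diff D D.r Finset.univ w) ^ 2 := by positivity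
    split_ifs with hlow
    · by_cases hb : ∃ j < k, ∃ v, avg D v (w.drop j).toFinset < ((k : ℝ) + 1) / 2 - lf B k (k - j)
      · obtain ⟨j, hj, v, hv⟩ := hb
        have h3 : bad j v (w.drop j).toFinset = 1 := by
          simp only [hbad]
          rw [if_pos hv]
        have h4 : bad j v (w.drop j).toFinset ≤
            ∑ p ∈ (Finset.range k) ×ˢ (Finset.univ : Finset (Fin N)),
              bad p.1 p.2 (w.drop p.1).toFinset :=
          Finset.single_le_sum (f := fun p : ℕ × Fin N => bad p.1 p.2 (w.drop p.1).toFinset)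
            (fun p _ => hbad0 _ _ _)
            (Finset.mem_product.2 ⟨Finset.mem_range.2 hj, Finset.mem_univ v⟩ :
              ((j, v) : ℕ × Fin N) ∈ (Finset.range k) ×ˢ (Finset.univ : Finset (Fin N)))
        linarith
      · push Not at hb
        have h3 := comp_ge D (lf B k) w D.r hw1 (by
          rw [hw2]
          intro j hj v'
          exact hb j hj v')
        rw [hwU, hw2, Finset.sum_sub_distrib, Finset.sum_const, Nat.card_Icc, nsmul_eq_mul,
          Nat.add_sub_cancel] at h3
        have h4 := cost_eq D w D.r Finset.univ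
        have h5 : diff D D.r Finset.univ w ≤ -lam := by
          rw [h4] at hlow
          rw [hthr] at hlow
          linarith
        have h6 : lam ^ 2 ≤ (diff D D.r Finset.univ w) ^ 2 := by nlinarith
        have h7 : 1 ≤ (1 / lam ^ 2) * (diff D D.r Finset.univ w) ^ 2 := by
          rw [one_div, inv_mul_eq_div, le_div_iff₀ (by positivity), one_mul]
          exact h6
        linarith
    · linarith
  refine h2.trans ?_
  rw [E_add k Finset.univ (fun w => (∑ p ∈ (Finset.range k) ×ˢ (Finset.univ : Finset (Fin N)),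
        bad p.1 p.2 (w.drop p.1).toFinset)) _, E_mul k Finset.univ (1 / lam ^ 2) _]
  have h3 := E_diff_sq D k D.r Finset.univ hcard
  -- sum of the bad events
  have hsum : ∀ (S : Finset (ℕ × Fin N)),
      E k Finset.univ (fun w => ∑ p ∈ S, bad p.1 p.2 (w.drop p.1).toFinset) =
        ∑ p ∈ S, E k Finset.univ (fun w => bad p.1 p.2 (w.drop p.1).toFinset) := by
    intro S
    induction S using Finset.induction_on with
    | empty =>
      simp only [Finset.sum_empty]
      rw [E_const k Finset.univ hcard, mul_zero]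
    | insert p S hp ih =>
      rw [Finset.sum_insert hp, ← ih, ← E_add]
      apply E_congr
      intro w _ _ _
      rw [Finset.sum_insert hp]
  have h4 : ∀ p ∈ (Finset.range k) ×ˢ (Finset.univ : Finset (Fin N)),
      E k Finset.univ (fun w => bad p.1 p.2 (w.drop p.1).toFinset) ≤
        (k.factorial : ℝ) * ((k + 1) * Real.exp (- (B * Real.log k))) := by
    rintro ⟨j, v⟩ hp
    rw [Finset.mem_product, Finset.mem_range] at hp
    have hj : j < k := hp.1
    simp only
    rw [E_drop j k Finset.univ hj.le hcard (fun T => bad j v T)]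
    have h5 : ∑ T ∈ (Finset.univ : Finset (Fin k)).powersetCard (k - j), bad j v T =
        ((((Finset.univ : Finset (Fin k)).powersetCard (k - j)).filter
          (fun T => avg D v T < ((k : ℝ) + 1) / 2 - lf B k (k - j))).card : ℝ) := by
      simp only [hbad]
      rw [Finset.sum_boole]
    rw [h5]
    have h6 := bad_sets D hB v (m := k - j) (by omega) (by omega)
    have h7 : (k.choose (k - j) : ℝ) * ((k - j).factorial : ℝ) * (j.factorial : ℝ) =
        (k.factorial : ℝ) := by
      have := Nat.choose_mul_factorial_mul_factorial (n := k) (k := k - j) (by omega)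
      rw [show k - (k - j) = j by omega] at this
      exact_mod_cast this
    calc _ ≤ (j.factorial : ℝ) * ((k - j).factorial : ℝ) *
          ((k + 1) * (k.choose (k - j)) * Real.exp (- (B * Real.log k))) :=
          mul_le_mul_of_nonneg_left h6 (by positivity)
      _ = (k.choose (k - j) : ℝ) * ((k - j).factorial : ℝ) * (j.factorial : ℝ) *
          ((k + 1) * Real.exp (- (B * Real.log k))) := by ring
      _ = _ := by rw [h7]
  rw [hsum]
  have h5 : ∑ p ∈ (Finset.range k) ×ˢ (Finset.univ : Finset (Fin N)),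
      E k Finset.univ (fun w => bad p.1 p.2 (w.drop p.1).toFinset) ≤
      (k * N) * ((k.factorial : ℝ) * ((k + 1) * Real.exp (- (B * Real.log k)))) := by
    calc _ ≤ _ := Finset.sum_le_sum h4
      _ = _ := by
        rw [Finset.sum_const, Finset.card_product, Finset.card_range, Finset.card_univ,
          Fintype.card_fin, nsmul_eq_mul]
        push_cast; ring
  have h6 : 1 / lam ^ 2 * E k Finset.univ (fun w => (diff D D.r Finset.univ w) ^ 2) ≤
      1 / lam ^ 2 * ((k.factorial : ℝ) * k * (k : ℝ) ^ 2) :=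
    mul_le_mul_of_nonneg_left h3 (by positivity)
  calc _ ≤ (k * N) * ((k.factorial : ℝ) * ((k + 1) * Real.exp (- (B * Real.log k)))) +
        1 / lam ^ 2 * ((k.factorial : ℝ) * k * (k : ℝ) ^ 2) := add_le_add h5 h6
    _ = _ := by ring

theorem lowCount_mono {k N : ℕ} (D : KDFA k N) {n n' : ℝ} (h : n ≤ n') :
    lowCount D n ≤ lowCount D n' := by
  classical
  unfold lowCount
  rw [Nat.card_eq_fintype_card, Fintype.card_subtype, Nat.card_eq_fintype_card,
    Fintype.card_subtype]
  apply Finset.card_le_card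
  intro σ hσ
  rw [Finset.mem_filter] at hσ ⊢
  exact ⟨hσ.1, hσ.2.trans h⟩

theorem lowCount_le {k N : ℕ} (D : KDFA k N) (n : ℝ) : lowCount D n ≤ k.factorial := by
  classical
  unfold lowCount
  rw [Nat.card_eq_fintype_card, Fintype.card_subtype]
  calc _ ≤ (Finset.univ : Finset (Equiv.Perm (Fin k))).card := Finset.card_filter_le _ _
    _ = _ := by rw [Finset.card_univ, Fintype.card_perm, Fintype.card_fin]

theorem G_le {k N : ℕ} {n b : ℝ} (hb : 0 ≤ b) (h : ∀ D : KDFA k N, (lowCount D n : ℝ) ≤ b) :
    (G k n N : ℝ) ≤ b := by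
  unfold G
  rcases Set.eq_empty_or_nonempty {m | ∃ D : KDFA k N, m = lowCount D n} with he | hne
  · rw [he]; simpa using hb
  · have hbd : BddAbove {m | ∃ D : KDFA k N, m = lowCount D n} := by
      refine ⟨k.factorial, ?_⟩
      rintro m ⟨D, rfl⟩
      exact lowCount_le D n
    obtain ⟨D, hD⟩ := Nat.sSup_mem hne hbd
    rw [hD]
    exact h D

theorem sum_inv_sqrt (K : ℕ) : ∑ m ∈ Finset.Icc 1 K, 1 / √(m : ℝ) ≤ 2 * √(K : ℝ) := by
  induction K with
  | zero => simp
  | succ K ih =>
    rw [Finset.sum_Icc_succ_top (by omega)]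
    have h1 : 0 < √((K + 1 : ℕ) : ℝ) := Real.sqrt_pos.2 (by positivity)
    have h2 : 0 ≤ √(K : ℝ) := Real.sqrt_nonneg _
    have h3 : √((K + 1 : ℕ) : ℝ) ^ 2 = K + 1 := by
      rw [Real.sq_sqrt (by positivity)]; push_cast; ring
    have h4 : √(K : ℝ) ^ 2 = K := Real.sq_sqrt (by positivity)
    have h5 : 1 / √((K + 1 : ℕ) : ℝ) ≤ 2 * √((K + 1 : ℕ) : ℝ) - 2 * √(K : ℝ) := by
      rw [div_le_iff₀ h1]
      nlinarith [sq_nonneg (√((K + 1 : ℕ) : ℝ) - √(K : ℝ))]
    linarith

theorem sum_lf (B : ℝ) (k : ℕ) :
    ∑ m ∈ Finset.Icc 1 k, lf B k m ≤ 2 * (k * √(k : ℝ) * √(B * Real.log k)) := by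
  have h1 : ∀ m ∈ Finset.Icc 1 k, lf B k m = k * √(B * Real.log k) * (1 / √(m : ℝ)) := by
    intro m _
    unfold lf
    rw [Real.sqrt_div' _ (by positivity)]
    ring
  rw [Finset.sum_congr rfl h1, ← Finset.mul_sum]
  calc _ ≤ k * √(B * Real.log k) * (2 * √(k : ℝ)) :=
        mul_le_mul_of_nonneg_left (sum_inv_sqrt k) (by positivity)
    _ = _ := by ring

theorem general (A : ℕ) (c₃ c : ℝ) (hc₃ : 3 / 2 < c₃) (hc : 0 < c) :
    Tendsto (fun k : ℕ => (G k ((k : ℝ) ^ 2 / 2 - c * (k : ℝ) ^ c₃) (k ^ A) : ℝ) /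
      (k.factorial : ℝ)) atTop (𝓝 0) := by
  set B : ℝ := A + 3 with hB
  have hB0 : 0 < B := by positivity
  -- log k is small against a power of k
  have hlit : ∀ᶠ k : ℕ in atTop, 16 * B * Real.log k ≤ c ^ 2 * (k : ℝ) ^ (2 * c₃ - 3) := by
    have h1 := (isLittleO_log_rpow_atTop (r := 2 * c₃ - 3) (by linarith)).comp_tendsto
      (tendsto_natCast_atTop_atTop (R := ℝ))
    have h2 := h1.bound (c := c ^ 2 / (16 * B)) (by positivity)
    filter_upwards [h2, eventually_ge_atTop 1] with k hk hk1
    simp only [Function.comp, Real.norm_eq_abs] at hk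
    have h3 : (0 : ℝ) ≤ (k : ℝ) ^ (2 * c₃ - 3) := by positivity
    rw [abs_of_nonneg h3] at hk
    have h4 := (le_abs_self _).trans hk
    calc 16 * B * Real.log k ≤ 16 * B * (c ^ 2 / (16 * B) * (k : ℝ) ^ (2 * c₃ - 3)) :=
          mul_le_mul_of_nonneg_left h4 (by positivity)
      _ = _ := by field_simp
  have hbound : ∀ᶠ k : ℕ in atTop, (G k ((k : ℝ) ^ 2 / 2 - c * (k : ℝ) ^ c₃) (k ^ A) : ℝ) /
      (k.factorial : ℝ) ≤ 2 * (k : ℝ)⁻¹ + 4 / c ^ 2 * (k : ℝ) ^ (-(2 * c₃ - 3)) := by
    filter_upwards [hlit, eventually_ge_atTop 1] with k hlit hk1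
    have hk : (1 : ℝ) ≤ k := by exact_mod_cast hk1
    have hk0 : (0 : ℝ) < k := by linarith
    have hlog : 0 ≤ Real.log k := Real.log_nonneg hk
    have hfac : (0 : ℝ) < k.factorial := by exact_mod_cast k.factorial_pos
    set lam : ℝ := c / 2 * (k : ℝ) ^ c₃ with hlam
    have hlam0 : 0 < lam := by positivity
    have hthr : (k : ℝ) ^ 2 / 2 - c * (k : ℝ) ^ c₃ ≤
        (k : ℝ) * (k + 1) / 2 - ∑ m ∈ Finset.Icc 1 k, lf B k m - lam := by
      have h1 := sum_lf B k
      have h2 : 2 * (k * √(k : ℝ) * √(B * Real.log k)) ≤ c / 2 * (k : ℝ) ^ c₃ := by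
        have h3 : √(B * Real.log k) ≤ c / 4 * (k : ℝ) ^ (c₃ - 3 / 2) := by
          rw [Real.sqrt_le_left (by positivity)]
          have h4 : (c / 4 * (k : ℝ) ^ (c₃ - 3 / 2)) ^ 2 = c ^ 2 / 16 * (k : ℝ) ^ (2 * c₃ - 3) := by
            rw [mul_pow, ← Real.rpow_natCast ((k : ℝ) ^ (c₃ - 3 / 2)) 2, ← Real.rpow_mul hk0.le]
            have : (c₃ - 3 / 2) * ((2 : ℕ) : ℝ) = 2 * c₃ - 3 := by push_cast; ring
            rw [this]; ring
          rw [h4]; linarith
        have h5 : (k : ℝ) * √(k : ℝ) * (k : ℝ) ^ (c₃ - 3 / 2) = (k : ℝ) ^ c₃ := by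
          rw [Real.sqrt_eq_rpow]
          nth_rewrite 1 [← Real.rpow_one (k : ℝ)]
          rw [← Real.rpow_add hk0, ← Real.rpow_add hk0]
          congr 1; ring
        calc 2 * (k * √(k : ℝ) * √(B * Real.log k))
            ≤ 2 * (k * √(k : ℝ) * (c / 4 * (k : ℝ) ^ (c₃ - 3 / 2))) := by
              apply mul_le_mul_of_nonneg_left _ (by norm_num)
              exact mul_le_mul_of_nonneg_left h3 (by positivity)
          _ = c / 2 * ((k : ℝ) * √(k : ℝ) * (k : ℝ) ^ (c₃ - 3 / 2)) := by ring
          _ = _ := by rw [h5]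
      rw [hlam]
      nlinarith
    rw [div_le_iff₀ hfac]
    apply G_le (by positivity)
    intro D
    have h1 := main_bound D hB0.le hlam0
    have h2 : (lowCount D ((k : ℝ) ^ 2 / 2 - c * (k : ℝ) ^ c₃) : ℝ) ≤
        lowCount D ((k : ℝ) * (k + 1) / 2 - ∑ m ∈ Finset.Icc 1 k, lf B k m - lam) := by
      exact_mod_cast lowCount_mono D hthr
    refine h2.trans (h1.trans ?_)
    rw [mul_comm]
    apply mul_le_mul_of_nonneg_right _ hfac.le
    apply add_le_add
    · have h3 : Real.exp (-(B * Real.log k)) = ((k : ℝ) ^ (A + 3))⁻¹ := by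
        rw [Real.exp_neg, mul_comm B, Real.exp_mul, Real.exp_log hk0, hB]
        congr 1
        rw [← Real.rpow_natCast]; push_cast; rfl
      rw [h3]
      push_cast
      rw [← div_eq_mul_inv, div_le_iff₀ (by positivity)]
      have h4 : 2 * (k : ℝ)⁻¹ * (k : ℝ) ^ (A + 3) = k * k ^ A * (2 * k) := by
        rw [pow_add]; field_simp
      rw [h4]
      apply mul_le_mul_of_nonneg_left _ (by positivity)
      linarith
    · apply le_of_eq
      have h5 : (k : ℝ) ^ (-(2 * c₃ - 3)) = (k : ℝ) ^ 3 / ((k : ℝ) ^ c₃) ^ 2 := by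
        rw [← Real.rpow_natCast ((k : ℝ) ^ c₃) 2, ← Real.rpow_mul hk0.le,
          ← Real.rpow_natCast (k : ℝ) 3, ← Real.rpow_sub hk0]
        congr 1
        push_cast; ring
      rw [h5, hlam]
      have h6 : (0 : ℝ) < (k : ℝ) ^ c₃ := by positivity
      field_simp
      ring
  have hlim : Tendsto (fun k : ℕ => 2 * (k : ℝ)⁻¹ + 4 / c ^ 2 * (k : ℝ) ^ (-(2 * c₃ - 3)))
      atTop (𝓝 0) := by
    have h1 : Tendsto (fun k : ℕ => 2 * (k : ℝ)⁻¹) atTop (𝓝 (2 * 0)) :=
      (tendsto_inv_atTop_nhds_zero_nat (𝕜 := ℝ)).const_mul 2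
    have h2 : Tendsto (fun k : ℕ => 4 / c ^ 2 * (k : ℝ) ^ (-(2 * c₃ - 3))) atTop
        (𝓝 (4 / c ^ 2 * 0)) :=
      ((tendsto_rpow_neg_atTop (by linarith : 0 < 2 * c₃ - 3)).comp
        tendsto_natCast_atTop_atTop).const_mul _
    have h3 := h1.add h2
    simpa using h3
  apply squeeze_zero' _ hbound hlim
  filter_upwards with k
  positivity

/-- **Low cost permutational walks are rare.** For every polynomial number of states, every exponent
`c₃ > 3 / 2` and every `c > 0`, the number of permutational words of cost at most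
`k ^ 2 / 2 - c k ^ c₃` is `o(k!)`; in particular Q1 holds. -/
theorem result :
    (∃ c₃ c : ℝ, c₃ < 7 / 4 ∧ 0 < c ∧
      Tendsto (fun k : ℕ => (G k ((k : ℝ) ^ 2 / 2 - c * (k : ℝ) ^ c₃) (k ^ 2) : ℝ) /
        (k.factorial : ℝ)) atTop (𝓝 0)) ∧
    (∀ (A : ℕ) (c₃ c : ℝ), 3 / 2 < c₃ → 0 < c →
      Tendsto (fun k : ℕ => (G k ((k : ℝ) ^ 2 / 2 - c * (k : ℝ) ^ c₃) (k ^ A) : ℝ) /
        (k.factorial : ℝ)) atTop (𝓝 0)) :=
  ⟨⟨8 / 5, 1, by norm_num, by norm_num, general 2 (8 / 5) 1 (by norm_num) (by norm_num)⟩, general⟩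

end Pool.Agent.Results.MP_91d3dc_co.EveryExponent
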